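import Mathlib

set_option autoImplicit false

/-!
# The connection matrix of a finite simplicial complex and its inverse
-/

namespace Q141.Conn

open Matrix

/-- A finite abstract simplicial complex: a finite family of nonempty finite sets which contains
every nonempty subset of each of its members. -/
def IsComplex {V : Type} (G : Finset (Finset V)) : Prop :=
  ∀ s ∈ G, s.Nonempty ∧ ∀ t ⊆ s, t.Nonempty → t ∈ G

/-- The connection matrix: `L(x, y) = 1` if `x ∩ y ≠ ∅` and `L(x, y) = 0` otherwise. -/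
def conn {V : Type} [DecidableEq V] (G : Finset (Finset V)) : Matrix G G ℝ :=
  Matrix.of fun x y => if (x.1 ∩ y.1).Nonempty then 1 else 0

/-- The complex is connected: the graph on its simplices in which two simplices are joined if they
intersect is connected. -/
def IsConn {V : Type} [DecidableEq V] (G : Finset (Finset V)) : Prop :=
  (SimpleGraph.fromRel fun x y : G => (x.1 ∩ y.1).Nonempty).Connected

section
variable {V : Type} [DecidableEq V] {G : Finset (Finset V)}

/-- the sign `(-1)^dim` -/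
def om (s : Finset V) : ℝ := (-1) ^ (s.card + 1)

omit [DecidableEq V] in
lemma om_mul_self (s : Finset V) : om s * om s = 1 := by
  unfold om
  rw [← pow_add, ← two_mul, pow_mul]
  norm_num

/-- the zeta matrix -/
def zeta (G : Finset (Finset V)) : Matrix G G ℝ := Matrix.of fun x y => if x.1 ⊆ y.1 then 1 else 0

/-- the diagonal matrix of signs -/
def W (G : Finset (Finset V)) : Matrix G G ℝ := Matrix.diagonal fun x => om x.1

lemma W_mul_W : W G * W G = 1 := by
  rw [W, Matrix.diagonal_mul_diagonal, ← Matrix.diagonal_one]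
  congr 1
  funext x
  exact om_mul_self _

lemma sum_Icc {x v : Finset V} (hxv : x ⊆ v) :
    ∑ u ∈ Finset.Icc x v, (-1 : ℝ) ^ u.card = if x = v then (-1 : ℝ) ^ x.card else 0 := by
  rw [Finset.Icc_eq_image_powerset hxv, Finset.sum_image]
  · have h1 : ∀ t ∈ (v \ x).powerset, (-1 : ℝ) ^ (x ∪ t).card = (-1) ^ x.card * (-1) ^ t.card := by
      intro t ht
      rw [Finset.mem_powerset] at ht
      have hd : Disjoint x t := by
        rw [Finset.disjoint_left]
        intro a ha hat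
        exact (Finset.mem_sdiff.1 (ht hat)).2 ha
      rw [Finset.card_union_of_disjoint hd, pow_add]
    rw [Finset.sum_congr rfl h1, ← Finset.mul_sum]
    have h2 : ∑ t ∈ (v \ x).powerset, (-1 : ℝ) ^ t.card = if v \ x = ∅ then 1 else 0 := by
      have := Finset.sum_powerset_neg_one_pow_card (x := v \ x)
      exact_mod_cast this
    rw [h2]
    by_cases h : x = v
    · subst h
      simp
    · have h3 : v \ x ≠ ∅ := by
        intro h4
        exact h (Finset.Subset.antisymm hxv (Finset.sdiff_eq_empty_iff_subset.1 h4))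
      simp [h, h3]
  · intro s hs t ht hst
    simp only [Finset.coe_powerset, Set.mem_preimage, Set.mem_powerset_iff,
      Finset.coe_subset] at hs ht
    simp only at hst
    ext a
    have h1 : a ∈ x ∪ s ↔ a ∈ x ∪ t := by rw [hst]
    simp only [Finset.mem_union] at h1
    constructor
    · intro ha
      have h2 := (Finset.mem_sdiff.1 (hs ha)).2
      rcases h1.1 (Or.inr ha) with h | h
      · exact absurd h h2
      · exact h
    · intro ha
      have h2 := (Finset.mem_sdiff.1 (ht ha)).2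
      rcases h1.2 (Or.inr ha) with h | h
      · exact absurd h h2
      · exact h

lemma mobius (hG : IsComplex G) : zeta G * (W G * zeta G * W G) = 1 := by
  ext x v
  rw [Matrix.mul_apply]
  have h1 : ∀ u : G, zeta G x u * (W G * zeta G * W G) u v =
      om v.1 * (if x.1 ⊆ u.1 ∧ u.1 ⊆ v.1 then om u.1 else 0) := by
    intro u
    rw [W, Matrix.mul_diagonal, Matrix.diagonal_mul]
    simp only [zeta, Matrix.of_apply]
    by_cases ha : x.1 ⊆ u.1 <;> by_cases hb : u.1 ⊆ v.1 <;> simp [ha, hb, mul_comm]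
  rw [Finset.sum_congr rfl (fun u _ => h1 u), ← Finset.mul_sum]
  have h2 : ∑ u : G, (if x.1 ⊆ u.1 ∧ u.1 ⊆ v.1 then om u.1 else 0) =
      ∑ u ∈ G, (if x.1 ⊆ u ∧ u ⊆ v.1 then om u else 0) :=
    Finset.sum_coe_sort G (fun u => if x.1 ⊆ u ∧ u ⊆ v.1 then om u else 0)
  rw [h2]
  by_cases hxv : x.1 ⊆ v.1
  · have h3 : ∑ u ∈ G, (if x.1 ⊆ u ∧ u ⊆ v.1 then om u else 0) =
        ∑ u ∈ Finset.Icc x.1 v.1, om u := by
      rw [← Finset.sum_filter]
      congr 1
      ext u
      simp only [Finset.mem_filter, Finset.mem_Icc]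
      constructor
      · exact fun h => h.2
      · rintro ⟨ha, hb⟩
        exact ⟨(hG v.1 v.2).2 u hb ((hG x.1 x.2).1.mono ha), ha, hb⟩
    rw [h3]
    have h4 : ∑ u ∈ Finset.Icc x.1 v.1, om u = - ∑ u ∈ Finset.Icc x.1 v.1, (-1 : ℝ) ^ u.card := by
      rw [← Finset.sum_neg_distrib]
      refine Finset.sum_congr rfl (fun u _ => ?_)
      rw [om, pow_succ]
      ring
    rw [h4, sum_Icc hxv]
    by_cases h : x = v
    · subst h
      rw [if_pos rfl, Matrix.one_apply_eq]
      have := om_mul_self x.1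
      rw [om, pow_succ] at this ⊢
      linarith
    · have h5 : x.1 ≠ v.1 := fun h6 => h (Subtype.ext h6)
      rw [if_neg h5, Matrix.one_apply_ne h]
      simp
  · have h6 : ∀ u ∈ G, (if x.1 ⊆ u ∧ u ⊆ v.1 then om u else 0) = 0 := by
      intro u _
      rw [if_neg]
      rintro ⟨ha, hb⟩
      exact hxv (ha.trans hb)
    rw [Finset.sum_eq_zero h6, mul_zero]
    have h7 : x ≠ v := by
      rintro rfl
      exact hxv (Finset.Subset.refl _)
    rw [Matrix.one_apply_ne h7]

lemma conn_eq (hG : IsComplex G) : conn G = (zeta G)ᵀ * W G * zeta G := by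
  ext u v
  rw [Matrix.mul_apply]
  have h1 : ∀ z : G, ((zeta G)ᵀ * W G) u z * zeta G z v =
      (if z.1 ⊆ u.1 ∧ z.1 ⊆ v.1 then om z.1 else 0) := by
    intro z
    rw [W, Matrix.mul_diagonal]
    simp only [zeta, Matrix.of_apply, Matrix.transpose_apply]
    by_cases ha : z.1 ⊆ u.1 <;> by_cases hb : z.1 ⊆ v.1 <;> simp [ha, hb]
  rw [Finset.sum_congr rfl (fun z _ => h1 z)]
  rw [Finset.sum_coe_sort G (fun z => if z ⊆ u.1 ∧ z ⊆ v.1 then om z else 0)]
  have h2 : ∑ z ∈ G, (if z ⊆ u.1 ∧ z ⊆ v.1 then om z else 0) =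
      ∑ z ∈ (u.1 ∩ v.1).powerset.erase ∅, om z := by
    rw [← Finset.sum_filter]
    congr 1
    ext z
    simp only [Finset.mem_filter, Finset.mem_erase, Finset.mem_powerset, Finset.subset_inter_iff]
    constructor
    · rintro ⟨ha, hb, hc⟩
      exact ⟨Finset.nonempty_iff_ne_empty.1 (hG z ha).1, hb, hc⟩
    · rintro ⟨ha, hb, hc⟩
      exact ⟨(hG u.1 u.2).2 z hb (Finset.nonempty_iff_ne_empty.2 ha), hb, hc⟩
  rw [h2]
  have h3 : ∑ z ∈ (u.1 ∩ v.1).powerset, om z = - (if u.1 ∩ v.1 = ∅ then 1 else 0) := by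
    have h4 : ∑ t ∈ (u.1 ∩ v.1).powerset, (-1 : ℝ) ^ t.card = if u.1 ∩ v.1 = ∅ then 1 else 0 := by
      have := Finset.sum_powerset_neg_one_pow_card (x := u.1 ∩ v.1)
      exact_mod_cast this
    rw [← h4, ← Finset.sum_neg_distrib]
    refine Finset.sum_congr rfl (fun z _ => ?_)
    rw [om, pow_succ]
    ring
  have h5 := Finset.sum_erase_add (u.1 ∩ v.1).powerset om (Finset.empty_mem_powerset _)
  rw [h3] at h5
  have h6 : om (∅ : Finset V) = -1 := by simp [om]
  rw [h6] at h5
  have h7 : ∑ z ∈ (u.1 ∩ v.1).powerset.erase ∅, om z = 1 - (if u.1 ∩ v.1 = ∅ then 1 else 0) := by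
    linarith
  rw [h7]
  simp only [conn, Matrix.of_apply]
  by_cases h : u.1 ∩ v.1 = ∅
  · rw [if_pos h, if_neg (by rw [h]; simp)]
    norm_num
  · rw [if_neg h, if_pos (Finset.nonempty_iff_ne_empty.2 h)]
    norm_num

/-- the inverse of the connection matrix -/
lemma conn_inv (hG : IsComplex G) : (conn G)⁻¹ = W G * zeta G * W G * (zeta G)ᵀ * W G := by
  apply Matrix.inv_eq_right_inv
  rw [conn_eq hG]
  have h1 := mobius hG
  have h2 : (W G * zeta G * W G) * zeta G = 1 := mul_eq_one_comm.1 h1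
  calc (zeta G)ᵀ * W G * zeta G * (W G * zeta G * W G * (zeta G)ᵀ * W G)
      = (zeta G)ᵀ * W G * (zeta G * (W G * zeta G * W G)) * (zeta G)ᵀ * W G := by
        simp only [Matrix.mul_assoc]
    _ = (zeta G)ᵀ * W G * (zeta G)ᵀ * W G := by rw [h1, Matrix.mul_one]
    _ = (W G * zeta G * W G * zeta G)ᵀ := by
        have hW : (W G)ᵀ = W G := by rw [W, Matrix.diagonal_transpose]
        simp only [Matrix.transpose_mul, hW, Matrix.mul_assoc]
    _ = 1 := by rw [h2, Matrix.transpose_one]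

lemma conn_mul_inv (hG : IsComplex G) : conn G * (conn G)⁻¹ = 1 := by
  apply Matrix.mul_nonsing_inv
  rw [← Matrix.isUnit_iff_isUnit_det]
  have h1 := mobius hG
  have h2 : (W G * zeta G * W G) * zeta G = 1 := mul_eq_one_comm.1 h1
  have h3 : IsUnit (zeta G) := ⟨⟨zeta G, _, h1, h2⟩, rfl⟩
  have h4 : IsUnit (W G) := ⟨⟨W G, W G, W_mul_W, W_mul_W⟩, rfl⟩
  have h5 : IsUnit (zeta G)ᵀ := by
    refine ⟨⟨(zeta G)ᵀ, (W G * zeta G * W G)ᵀ, ?_, ?_⟩, rfl⟩
    · rw [← Matrix.transpose_mul, h2, Matrix.transpose_one]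
    · rw [← Matrix.transpose_mul, h1, Matrix.transpose_one]
  rw [conn_eq hG]
  exact (h5.mul h4).mul h3

/-- the quadratic form of the inverse of the connection matrix -/
lemma quad (hG : IsComplex G) (F : Finset V → ℝ) :
    (fun x : G => F x.1) ⬝ᵥ ((conn G)⁻¹ *ᵥ (fun x : G => F x.1)) =
      ∑ u ∈ G, om u * (∑ x ∈ G with x ⊆ u, om x * F x) ^ 2 := by
  rw [conn_inv hG]
  set f : G → ℝ := fun x => F x.1 with hf
  have hW : (W G)ᵀ = W G := by rw [W, Matrix.diagonal_transpose]
  have h1 : W G * zeta G * W G * (zeta G)ᵀ * W G = ((zeta G)ᵀ * W G)ᵀ * (W G * ((zeta G)ᵀ * W G)) := by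
    rw [Matrix.transpose_mul, Matrix.transpose_transpose, hW]
    simp only [Matrix.mul_assoc]
  have h0 : f ⬝ᵥ ((((zeta G)ᵀ * W G)ᵀ * (W G * ((zeta G)ᵀ * W G))) *ᵥ f) =
      (((zeta G)ᵀ * W G) *ᵥ f) ⬝ᵥ (W G *ᵥ (((zeta G)ᵀ * W G) *ᵥ f)) := by
    generalize (zeta G)ᵀ * W G = A
    rw [← Matrix.mulVec_mulVec, Matrix.dotProduct_mulVec, Matrix.vecMul_transpose,
      ← Matrix.mulVec_mulVec]
  rw [h1, h0]
  set h : G → ℝ := ((zeta G)ᵀ * W G) *ᵥ f with hh
  have h2 : ∀ u : G, h u = ∑ x ∈ G with x ⊆ u.1, om x * F x := by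
    intro u
    rw [hh, Matrix.mulVec, dotProduct]
    have h3 : ∀ x : G, ((zeta G)ᵀ * W G) u x * f x = if x.1 ⊆ u.1 then om x.1 * F x.1 else 0 := by
      intro x
      rw [W, Matrix.mul_diagonal]
      simp only [zeta, Matrix.of_apply, Matrix.transpose_apply]
      by_cases ha : x.1 ⊆ u.1 <;> simp [ha, hf]
    rw [Finset.sum_congr rfl (fun x _ => h3 x),
      Finset.sum_coe_sort G (fun x => if x ⊆ u.1 then om x * F x else 0), ← Finset.sum_filter]
  rw [dotProduct]
  have h4 : ∀ u : G, h u * (W G *ᵥ h) u = om u.1 * (∑ x ∈ G with x ⊆ u.1, om x * F x) ^ 2 := by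
    intro u
    rw [W, Matrix.mulVec_diagonal, ← h2 u]
    ring
  rw [Finset.sum_congr rfl (fun u _ => h4 u)]
  exact Finset.sum_coe_sort G (fun u => om u * (∑ x ∈ G with x ⊆ u, om x * F x) ^ 2)

end

end Q141.Conn
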